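import Pool.Agent.H28.PL.DefsJ
import Pool.Agent.H28.PL.Easy

/-!
# Row JP: the product over the divisors
-/

set_option autoImplicit false

open Finset
open Pool.Agent.H28.PL

namespace Pool.Agent.H94.PL

theorem pe_two (N : ℕ) : pe (2 * N) = pe N * ve N := by
  obtain ⟨h1, h2⟩ := pf_BIN N
  obtain ⟨h3, _⟩ := pf_BIN (2 * N)
  have hs : (0 : ℝ) < 2 * Real.sqrt 2 := by positivity
  have h4 : 2 * Real.sqrt 2 * (pe (2 * N) : ℝ) = 2 * Real.sqrt 2 * ((pe N : ℝ) * (ve N : ℝ)) := by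
    rw [h3, ← mul_assoc, h1, h2, two_mul, pow_add, pow_add]
    ring
  have h5 := mul_left_cancel₀ hs.ne' h4
  exact_mod_cast h5

theorem divisors_split (c n : ℕ) (hn : Odd n) :
    (2 ^ (c + 1) * n).divisors = (2 ^ c * n).divisors ∪
      n.divisors.image (fun d => 2 ^ (c + 1) * d) := by
  have hn0 : 0 < n := hn.pos
  ext d
  rw [Nat.mem_divisors, mem_union, Nat.mem_divisors, mem_image]
  have h0 : 2 ^ (c + 1) * n ≠ 0 := by positivity
  have h1 : 2 ^ c * n ≠ 0 := by positivity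
  constructor
  · rintro ⟨hd, _⟩
    by_cases h : 2 ^ (c + 1) ∣ d
    · obtain ⟨e, rfl⟩ := h
      right
      exact ⟨e, Nat.mem_divisors.2 ⟨Nat.dvd_of_mul_dvd_mul_left (by positivity) hd, hn0.ne'⟩, rfl⟩
    · left
      refine ⟨?_, h1⟩
      obtain ⟨a, m, hm, hdm⟩ := Nat.exists_eq_two_pow_mul_odd (n := d) (fun h => by
        rw [h] at hd
        exact h0 (Nat.eq_zero_of_zero_dvd hd))
      have ha : a ≤ c := by
        by_contra hc
        push Not at hc
        apply h
        rw [hdm]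
        exact Dvd.dvd.mul_right (pow_dvd_pow 2 hc) m
      have hmn : m ∣ n := by
        have h2 : m ∣ 2 ^ (c + 1) * n := (Dvd.intro_left _ hdm.symm).trans hd
        have h3 : Nat.Coprime m (2 ^ (c + 1)) :=
          Nat.Coprime.pow_right _ (Nat.coprime_two_right.2 hm)
        exact h3.dvd_of_dvd_mul_left h2
      rw [hdm]
      exact mul_dvd_mul (pow_dvd_pow 2 ha) hmn
  · rintro (⟨hd, _⟩ | ⟨e, he, rfl⟩)
    · refine ⟨hd.trans ?_, h0⟩
      exact mul_dvd_mul_right (pow_dvd_pow 2 (Nat.le_succ c)) n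
    · exact ⟨mul_dvd_mul_left _ (Nat.dvd_of_mem_divisors he), h0⟩

theorem divisors_disj (c n : ℕ) (hn : Odd n) :
    Disjoint (2 ^ c * n).divisors (n.divisors.image (fun d => 2 ^ (c + 1) * d)) := by
  rw [Finset.disjoint_left]
  intro d hd hd'
  obtain ⟨e, _, rfl⟩ := mem_image.1 hd'
  have h1 : 2 ^ (c + 1) * e ∣ 2 ^ c * n := Nat.dvd_of_mem_divisors hd
  rw [pow_succ, mul_assoc] at h1
  have h2 : 2 * e ∣ n := Nat.dvd_of_mul_dvd_mul_left (by positivity) h1
  have h3 : 2 ∣ n := (Dvd.intro e rfl).trans h2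
  exact (Nat.not_even_iff_odd.2 hn) (even_iff_two_dvd.2 h3)

theorem pf_JP : T_JP := by
  intro L hL c n hn
  have hn0 : 0 < n := hn.pos
  unfold AA
  cases c with
  | zero =>
    rw [if_pos rfl, ← hL n hn0]
    exact prod_congr rfl fun d _ => by rw [pow_zero, one_mul]
  | succ c =>
    rw [if_neg (Nat.succ_ne_zero c), Nat.add_sub_cancel]
    have hN : 0 < 2 ^ c * n := by positivity
    have h1 := hL (2 ^ (c + 1) * n) (by positivity)
    rw [divisors_split c n hn, prod_union (divisors_disj c n hn), hL _ hN,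
      prod_image (by
        intro x _ y _ hxy
        exact Nat.eq_of_mul_eq_mul_left (by positivity) hxy),
      show 2 ^ (c + 1) * n = 2 * (2 ^ c * n) from by rw [pow_succ]; ring, pe_two] at h1
    have hpe : 0 < pe (2 ^ c * n) := by
      obtain ⟨k, hk⟩ : ∃ k, 2 ^ c * n = k + 1 := ⟨2 ^ c * n - 1, by omega⟩
      rw [hk]
      exact pe_pos k
    exact Nat.eq_of_mul_eq_mul_left hpe h1

end Pool.Agent.H94.PL
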