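import Pool.Agent.H28.PL.Defs

/-!
# Row APO: the approximation, `N` odd
-/

set_option autoImplicit false

open Finset
open Pool.Agent.H28.PL

namespace Pool.Agent.H94.PL

theorem al_two : 2 ≤ al := by
  unfold al
  have : (1 : ℝ) ≤ Real.sqrt 2 := by
    rw [Real.one_le_sqrt]
    norm_num
  linarith

theorem al_be : al * be = -1 := by
  unfold al be
  have : Real.sqrt 2 * Real.sqrt 2 = 2 := Real.mul_self_sqrt (by norm_num)
  nlinarith

/-- the term, without division -/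
theorem term_eq {x y : ℝ} (hx : x ≠ 0) (h : ℝ) (j r : ℕ) :
    2 ^ (2 * j + r) * (x ^ (2 * j + r) * (h * (y / x / 4) ^ j)) =
      2 ^ r * h * (x * y) ^ j * x ^ r := by
  have h4 : (2 : ℝ) ^ (2 * j) = 4 ^ j := by
    rw [pow_mul]
    norm_num
  have h5 : x ^ (2 * j) = x ^ j * x ^ j := by
    rw [two_mul, pow_add]
  rw [pow_add, pow_add, h4, h5, div_pow, div_pow, mul_pow]
  have h6 : (4 : ℝ) ^ j ≠ 0 := by positivity
  have h7 : x ^ j ≠ 0 := pow_ne_zero j hx
  field_simp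

theorem aux_pow {x : ℝ} (hx : 0 < x) (K : ℕ) :
    2 ^ (2 * K + 1) * (x ^ (2 * K + 1) * (2 / x ^ 2) ^ (K + 1)) = 2 ^ (3 * K + 2) / x := by
  rw [div_pow, ← pow_mul, show 2 * (K + 1) = 2 * K + 1 + 1 from by ring,
    pow_succ x (2 * K + 1), show 3 * K + 2 = 2 * K + 1 + (K + 1) from by ring,
    pow_add (2 : ℝ) (2 * K + 1) (K + 1)]
  field_simp

theorem pf_APO (hB : T_BIN) : T_APO := by
  intro h s K F B hs hS
  obtain ⟨_, hsum, hsm, hle⟩ := hS
  set x : ℝ := al ^ s with hx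
  set y : ℝ := be ^ s with hy
  have hal := al_two
  have hx2 : 2 ≤ x := by
    calc (2 : ℝ) ≤ al ^ 1 := by rw [pow_one]; exact hal
      _ ≤ al ^ s := pow_le_pow_right₀ (by linarith) hs
  have hx0 : 0 < x := by linarith
  have hxy : x * y = (-1) ^ s := by
    rw [hx, hy, ← mul_pow, al_be]
  have hxya : |x * y| = 1 := by
    rw [hxy, abs_pow, abs_neg, abs_one, one_pow]
  have hya : |y| = x⁻¹ := by
    rw [abs_mul, abs_of_pos hx0] at hxya
    exact eq_inv_of_mul_eq_one_right hxya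
  have ht : (be / al) ^ s = y / x := by rw [div_pow]
  rw [ht] at hsum
  set a : ℕ → ℝ := fun j => |(h j : ℝ)| / 8 ^ j with ha
  have ha0 : ∀ j, 0 ≤ a j := fun j => by rw [ha]; positivity
  have hah : ∀ j, |(h j : ℝ)| = a j * 8 ^ j := by
    intro j
    rw [ha]
    field_simp
  set S := (range (2 * K + 1 + 1)).filter (fun j => 2 * j < 2 * K + 1) with hSd
  have hSm : ∀ j, j ∈ S ↔ j ≤ K := by
    intro j
    rw [hSd, mem_filter, mem_range]
    omega
  -- the finite part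
  set c : ℕ → ℝ := fun j => if j ∈ S then
    2 ^ (2 * K + 1 - 2 * j) * (h j : ℝ) * (x * y) ^ j *
      (x ^ (2 * K + 1 - 2 * j) + y ^ (2 * K + 1 - 2 * j)) else 0 with hc
  have hW : (WW h s (2 * K + 1) : ℝ) = ∑ j ∈ S, c j := by
    unfold WW
    rw [if_neg (by rw [Nat.not_even_iff_odd]; exact ⟨K, rfl⟩), add_zero, Int.cast_sum]
    refine Finset.sum_congr rfl fun j hj => ?_
    rw [hc]
    simp only [if_pos hj]
    push_cast
    rw [(hB _).2, hxy, ← pow_mul, pow_mul al s, pow_mul be s]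
  have hfin : HasSum c (∑ j ∈ S, c j) := hasSum_sum_of_ne_finset_zero fun j hj => by
    rw [hc]
    simp only [if_neg hj]
  have hmain : HasSum (fun j => 2 ^ (2 * K + 1) * (x ^ (2 * K + 1) * ((h j : ℝ) *
      (y / x / 4) ^ j)) - c j)
      (2 ^ (2 * K + 1) * (x ^ (2 * K + 1) * F) - (WW h s (2 * K + 1) : ℝ)) := by
    rw [hW]
    exact ((hsum.mul_left _).mul_left _).sub hfin
  have hbd : HasSum (fun j => 2 ^ (3 * K + 2) / x * a j) (2 ^ (3 * K + 2) / x * ∑' j, a j) :=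
    hsm.hasSum.mul_left _
  have key : ∀ j, ‖2 ^ (2 * K + 1) * (x ^ (2 * K + 1) * ((h j : ℝ) * (y / x / 4) ^ j)) - c j‖ ≤
      2 ^ (3 * K + 2) / x * a j := by
    intro j
    rw [Real.norm_eq_abs]
    by_cases hj : j ≤ K
    · have hc' : c j = 2 ^ (2 * K + 1 - 2 * j) * (h j : ℝ) * (x * y) ^ j *
          (x ^ (2 * K + 1 - 2 * j) + y ^ (2 * K + 1 - 2 * j)) := by
        rw [hc]
        simp only [if_pos ((hSm j).2 hj)]
      obtain ⟨r, hr⟩ : ∃ r, 2 * K + 1 = 2 * j + (r + 1) := ⟨2 * K - 2 * j, by omega⟩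
      have hr' : 2 * K + 1 - 2 * j = r + 1 := by omega
      rw [hc', hr', hr, term_eq hx0.ne']
      have e1 : 2 ^ (r + 1) * (h j : ℝ) * (x * y) ^ j * x ^ (r + 1) -
          2 ^ (r + 1) * (h j : ℝ) * (x * y) ^ j * (x ^ (r + 1) + y ^ (r + 1)) =
          -(2 ^ (r + 1) * (h j : ℝ) * (x * y) ^ j * y ^ (r + 1)) := by ring
      rw [e1, abs_neg, abs_mul, abs_mul, abs_mul, abs_pow (x * y), hxya, one_pow, mul_one,
        abs_pow y, hya, hah, abs_of_pos (by positivity : (0 : ℝ) < 2 ^ (r + 1))]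
      have e2 : (x⁻¹) ^ (r + 1) ≤ x⁻¹ := by
        have h1 : x⁻¹ ≤ 1 := inv_le_one_of_one_le₀ (by linarith)
        calc (x⁻¹) ^ (r + 1) ≤ (x⁻¹) ^ 1 :=
              pow_le_pow_of_le_one (inv_pos.2 hx0).le h1 (by omega)
          _ = x⁻¹ := pow_one _
      have e3 : (2 : ℝ) ^ (r + 1) * 8 ^ j ≤ 2 ^ (3 * K + 2) := by
        have h8 : (8 : ℝ) ^ j = 2 ^ (3 * j) := by
          rw [pow_mul]
          norm_num
        rw [h8, ← pow_add]
        exact pow_le_pow_right₀ (by norm_num) (by omega)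
      calc 2 ^ (r + 1) * (a j * 8 ^ j) * (x⁻¹) ^ (r + 1)
          = (2 ^ (r + 1) * 8 ^ j) * (x⁻¹) ^ (r + 1) * a j := by ring
        _ ≤ 2 ^ (3 * K + 2) * x⁻¹ * a j := by
            refine mul_le_mul_of_nonneg_right ?_ (ha0 j)
            exact mul_le_mul e3 e2 (by positivity) (by positivity)
        _ = 2 ^ (3 * K + 2) / x * a j := by rw [div_eq_mul_inv]
    · have hc' : c j = 0 := by
        rw [hc]
        simp only [if_neg (fun h => hj ((hSm j).1 h))]
      obtain ⟨r, hr⟩ : ∃ r, j = K + 1 + r := ⟨j - K - 1, by omega⟩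
      rw [hc', sub_zero, abs_mul, abs_mul, abs_mul, hah, abs_pow (y / x / 4), abs_div, abs_div,
        hya, abs_of_pos hx0, abs_of_pos (by positivity : (0 : ℝ) < 2 ^ (2 * K + 1)),
        abs_of_pos (by positivity : (0 : ℝ) < x ^ (2 * K + 1)),
        abs_of_pos (by norm_num : (0 : ℝ) < 4)]
      -- 2^(2K+1) x^(2K+1) a_j 8^j (x^-2 / 4)^j = a_j 2^(2K+1+j) x^(2K+1-2j)
      have e1 : 2 ^ (2 * K + 1) * (x ^ (2 * K + 1) * (a j * 8 ^ j * (x⁻¹ / x / 4) ^ j)) =
          2 ^ (3 * K + 2) / x * a j * (2 / x ^ 2) ^ r := by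
        have h1 : (8 : ℝ) ^ j * (x⁻¹ / x / 4) ^ j = (2 / x ^ 2) ^ j := by
          rw [← mul_pow]
          congr 1
          field_simp
          norm_num
        have h2 : 2 ^ (2 * K + 1) * (x ^ (2 * K + 1) * (a j * 8 ^ j * (x⁻¹ / x / 4) ^ j)) =
            2 ^ (2 * K + 1) * (x ^ (2 * K + 1) * (a j * (8 ^ j * (x⁻¹ / x / 4) ^ j))) := by ring
        rw [h2, h1, hr, pow_add (2 / x ^ 2) (K + 1) r]
        have h3 := aux_pow hx0 K
        rw [← h3]
        ring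
      rw [e1]
      have e2 : (2 / x ^ 2) ^ r ≤ 1 := by
        refine pow_le_one₀ (by positivity) ?_
        rw [div_le_one (by positivity)]
        nlinarith
      have e3 : 0 ≤ 2 ^ (3 * K + 2) / x * a j := mul_nonneg (by positivity) (ha0 j)
      calc 2 ^ (3 * K + 2) / x * a j * (2 / x ^ 2) ^ r ≤ 2 ^ (3 * K + 2) / x * a j * 1 :=
            mul_le_mul_of_nonneg_left e2 e3
        _ = _ := mul_one _
  have h1 := hmain.norm_le_of_bounded hbd key
  rw [Real.norm_eq_abs] at h1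
  refine h1.trans ?_
  calc 2 ^ (3 * K + 2) / x * ∑' j, a j ≤ 2 ^ (3 * K + 2) / x * B :=
        mul_le_mul_of_nonneg_left hle (by positivity)
    _ = B * 2 ^ (3 * K + 2) / x := by ring

end Pool.Agent.H94.PL
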