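import Pool.Agent.H8.PL.Targets
import Pool.Agent.H89.TO.CD

/-!
# Board pl_modules, D1: the axioms are definable
-/

set_option autoImplicit false

namespace Pool.Agent.H94.PL

open Pool.Agent.H8.PL Pool.Agent.H16.TO Pool.Agent.H89.TO

lemma cd_P (i : ℕ) : CD (fun _ P _ x _ => P i x) ∧ CD (fun _ P _ _ y => P i y) := pf_cd.1 i

lemma cd_R0 : CD (fun _ _ R x y => R 0 x y) := (pf_cd.2.1 0 (by norm_num)).1

lemma cd_labx {Q : Type} [Finite Q] (enc : Q → ℕ) (q : Q) :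
    CD (fun _ P _ x _ => LabAt enc P q x) := by
  unfold LabAt
  refine cd_and (cd_P _).1 (cd_allFinite Q (fun q' _ P _ x _ => q' ≠ q → ¬ P (enc q') x) fun q' => ?_)
  exact cd_imp (cd_const _) (cd_not (cd_P _).1)

lemma cd_laby {Q : Type} [Finite Q] (enc : Q → ℕ) (q : Q) :
    CD (fun _ P _ _ y => LabAt enc P q y) := by
  unfold LabAt
  refine cd_and (cd_P _).2 (cd_allFinite Q (fun q' _ P _ _ y => q' ≠ q → ¬ P (enc q') y) fun q' => ?_)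
  exact cd_imp (cd_const _) (cd_not (cd_P _).2)

lemma cd_oneT {F : Pd2} (h : CD F) :
    CD (fun n P R x _ => {b | b < n ∧ F n P R x b}.ncard = 1) := by
  refine cd_congr (cd_and (cd_cntT 1 h) (cd_not (cd_cntT 2 h))) ?_
  intro n P R x y _ _
  omega

lemma cd_oneF {F : Pd2} (h : CD F) :
    CD (fun n P R _ y => {a | a < n ∧ F n P R a y}.ncard = 1) := by
  refine cd_congr (cd_and (cd_cntF 1 h) (cd_not (cd_cntF 2 h))) ?_
  intro n P R x y _ _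
  omega

/-- an axiom on the neighbours of a certain kind -/
lemma cd_nb {Q : Type} [Finite Q] (enc : Lb × Q → ℕ) (c : Lb × Q → Prop)
    (d : Lb × Q → Lb × Q → Prop) :
    CD (fun n P R _ _ => ∀ a < n, (∃ q, LabAt enc P q a ∧ c q) →
      {b | b < n ∧ R 0 a b ∧ ∃ q, ∃ q', (LabAt enc P q a ∧ LabAt enc P q' b) ∧ d q q'}.ncard
        = 1) := by
  refine cd_allF (F := fun n P R x _ => (∃ q, LabAt enc P q x ∧ c q) →
      {b | b < n ∧ R 0 x b ∧ ∃ q, ∃ q', (LabAt enc P q x ∧ LabAt enc P q' b) ∧ d q q'}.ncard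
        = 1) (cd_imp ?_ ?_)
  · exact cd_exFinite _ (fun q _ P _ x _ => LabAt enc P q x ∧ c q) fun q =>
      cd_and (cd_labx enc q) (cd_const _)
  · refine cd_oneT (F := fun n P R x b => R 0 x b ∧
      ∃ q, ∃ q', (LabAt enc P q x ∧ LabAt enc P q' b) ∧ d q q') (cd_and cd_R0 ?_)
    refine cd_exFinite _ (fun q _ P _ x y => ∃ q', (LabAt enc P q x ∧ LabAt enc P q' y) ∧ d q q')
      fun q => ?_
    refine cd_exFinite _ (fun q' _ P _ x y => (LabAt enc P q x ∧ LabAt enc P q' y) ∧ d q q')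
      fun q' => ?_
    exact cd_and (cd_and (cd_labx enc q) (cd_laby enc q')) (cd_const _)

theorem pf_d1 : Z_D1 := by
  intro Q _ U Hh Vv enc _
  unfold AxP
  refine cd_and ?_ (cd_and ?_ (cd_and ?_ (cd_and ?_ (cd_and ?_ (cd_and ?_ ?_)))))
  · refine cd_allF (F := fun n P R x _ => ∃ q, LabAt enc P q x ∧ (ons true q.1 →
      U (decide (q.1.h = 0)) (decide (q.1.h = 3)) (decide (q.1.v = 0)) (decide (q.1.v = 3)) q.2)) ?_
    exact cd_exFinite _ (fun q _ P _ x _ => LabAt enc P q x ∧ (ons true q.1 →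
      U (decide (q.1.h = 0)) (decide (q.1.h = 3)) (decide (q.1.v = 0)) (decide (q.1.v = 3)) q.2))
      fun q => cd_and (cd_labx enc q) (cd_const _)
  · refine cd_allF (F := fun n P R x _ => ∀ b < n, R 0 x b → ∃ q, ∃ q',
      (LabAt enc P q x ∧ LabAt enc P q' b) ∧
      (Ea q.1 q'.1 ∨ Ea q'.1 q.1 ∨ No q.1 q'.1 ∨ No q'.1 q.1) ∧
      (ons true q.1 → ons true q'.1 → Ea q.1 q'.1 → Hh q.2 q'.2) ∧
      (ons true q.1 → ons true q'.1 → No q.1 q'.1 → Vv q.2 q'.2)) ?_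
    refine cd_allT (F := fun n P R x y => R 0 x y → ∃ q, ∃ q',
      (LabAt enc P q x ∧ LabAt enc P q' y) ∧
      (Ea q.1 q'.1 ∨ Ea q'.1 q.1 ∨ No q.1 q'.1 ∨ No q'.1 q.1) ∧
      (ons true q.1 → ons true q'.1 → Ea q.1 q'.1 → Hh q.2 q'.2) ∧
      (ons true q.1 → ons true q'.1 → No q.1 q'.1 → Vv q.2 q'.2)) (cd_imp cd_R0 ?_)
    refine cd_exFinite _ (fun q _ P _ x y => ∃ q',
      (LabAt enc P q x ∧ LabAt enc P q' y) ∧
      (Ea q.1 q'.1 ∨ Ea q'.1 q.1 ∨ No q.1 q'.1 ∨ No q'.1 q.1) ∧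
      (ons true q.1 → ons true q'.1 → Ea q.1 q'.1 → Hh q.2 q'.2) ∧
      (ons true q.1 → ons true q'.1 → No q.1 q'.1 → Vv q.2 q'.2)) fun q => ?_
    refine cd_exFinite _ (fun q' _ P _ x y =>
      (LabAt enc P q x ∧ LabAt enc P q' y) ∧
      (Ea q.1 q'.1 ∨ Ea q'.1 q.1 ∨ No q.1 q'.1 ∨ No q'.1 q.1) ∧
      (ons true q.1 → ons true q'.1 → Ea q.1 q'.1 → Hh q.2 q'.2) ∧
      (ons true q.1 → ons true q'.1 → No q.1 q'.1 → Vv q.2 q'.2)) fun q' => ?_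
    exact cd_and (cd_and (cd_labx enc q) (cd_laby enc q')) (cd_const _)
  · exact cd_allFinite Bool (fun s n P R _ _ => ∀ a < n,
      (∃ q, LabAt enc P q a ∧ ons s q.1 ∧ q.1.h ≠ 3) →
      {b | b < n ∧ R 0 a b ∧ ∃ q, ∃ q', (LabAt enc P q a ∧ LabAt enc P q' b) ∧
        ons s q.1 ∧ ons s q'.1 ∧ Ea q.1 q'.1}.ncard = 1) fun s =>
      cd_nb enc (fun q => ons s q.1 ∧ q.1.h ≠ 3)
        (fun q q' => ons s q.1 ∧ ons s q'.1 ∧ Ea q.1 q'.1)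
  · exact cd_allFinite Bool (fun s n P R _ _ => ∀ a < n,
      (∃ q, LabAt enc P q a ∧ ons s q.1 ∧ q.1.h ≠ 0) →
      {b | b < n ∧ R 0 a b ∧ ∃ q, ∃ q', (LabAt enc P q a ∧ LabAt enc P q' b) ∧
        ons s q.1 ∧ ons s q'.1 ∧ Ea q'.1 q.1}.ncard = 1) fun s =>
      cd_nb enc (fun q => ons s q.1 ∧ q.1.h ≠ 0)
        (fun q q' => ons s q.1 ∧ ons s q'.1 ∧ Ea q'.1 q.1)
  · exact cd_allFinite Bool (fun s n P R _ _ => ∀ a < n,
      (∃ q, LabAt enc P q a ∧ ons s q.1 ∧ q.1.v ≠ 3) →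
      {b | b < n ∧ R 0 a b ∧ ∃ q, ∃ q', (LabAt enc P q a ∧ LabAt enc P q' b) ∧
        ons s q.1 ∧ ons s q'.1 ∧ No q.1 q'.1}.ncard = 1) fun s =>
      cd_nb enc (fun q => ons s q.1 ∧ q.1.v ≠ 3)
        (fun q q' => ons s q.1 ∧ ons s q'.1 ∧ No q.1 q'.1)
  · exact cd_allFinite Bool (fun s n P R _ _ => ∀ a < n,
      (∃ q, LabAt enc P q a ∧ ons s q.1 ∧ q.1.v ≠ 0) →
      {b | b < n ∧ R 0 a b ∧ ∃ q, ∃ q', (LabAt enc P q a ∧ LabAt enc P q' b) ∧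
        ons s q.1 ∧ ons s q'.1 ∧ No q'.1 q.1}.ncard = 1) fun s =>
      cd_nb enc (fun q => ons s q.1 ∧ q.1.v ≠ 0)
        (fun q q' => ons s q.1 ∧ ons s q'.1 ∧ No q'.1 q.1)
  · refine cd_allFinite (Fin 4) (fun h n P R _ _ => ∀ v : Fin 4, (h = 0 ∨ h = 3) →
      (v = 0 ∨ v = 3) → {a | a < n ∧ ∃ q, LabAt enc P q a ∧ q.1.h = h ∧ q.1.v = v}.ncard = 1)
      fun h => ?_
    refine cd_allFinite (Fin 4) (fun v n P R _ _ => (h = 0 ∨ h = 3) →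
      (v = 0 ∨ v = 3) → {a | a < n ∧ ∃ q, LabAt enc P q a ∧ q.1.h = h ∧ q.1.v = v}.ncard = 1)
      fun v => ?_
    refine cd_imp (cd_const _) (cd_imp (cd_const _) ?_)
    refine cd_oneF (F := fun n P R x _ => ∃ q, LabAt enc P q x ∧ q.1.h = h ∧ q.1.v = v) ?_
    exact cd_exFinite _ (fun q _ P _ x _ => LabAt enc P q x ∧ q.1.h = h ∧ q.1.v = v) fun q =>
      cd_and (cd_labx enc q) (cd_const _)

end Pool.Agent.H94.PL
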