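import Pool.Agent.H8.PL.Targets

/-!
# Board pl_modules, DV: development of both sheets
-/

set_option autoImplicit false

namespace Pool.Agent.H94.PL

open Pool.Agent.H8.PL

section
variable {V : Type} {G : SimpleGraph V} {lb : V → Lb}

lemma stp_ne {a b : Fin 4} (h : stp a b) : a ≠ 3 ∧ b ≠ 0 := by
  rcases h with ⟨rfl, rfl⟩ | ⟨rfl, rfl⟩ | ⟨rfl, rfl⟩ | ⟨rfl, rfl⟩ <;> decide

lemma stp_zero {b : Fin 4} (h : stp 0 b) : b = 1 := by
  rcases h with ⟨h1, rfl⟩ | ⟨h1, rfl⟩ | ⟨h1, rfl⟩ | ⟨h1, rfl⟩
  · rfl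
  all_goals exact absurd h1 (by decide)

lemma stp_one {b : Fin 4} (h : stp 1 b) : b = 2 := by
  rcases h with ⟨h1, rfl⟩ | ⟨h1, rfl⟩ | ⟨h1, rfl⟩ | ⟨h1, rfl⟩
  · exact absurd h1 (by decide)
  · rfl
  all_goals exact absurd h1 (by decide)

lemma stp_two {b : Fin 4} (h : stp 2 b) : b = 2 ∨ b = 3 := by
  rcases h with ⟨h1, rfl⟩ | ⟨h1, rfl⟩ | ⟨h1, rfl⟩ | ⟨h1, rfl⟩
  · exact absurd h1 (by decide)
  · exact absurd h1 (by decide)
  · exact Or.inl rfl
  · exact Or.inr rfl

/-- the types along a line -/
lemma types {W : ℕ} (hW : 0 < W) (t : ℕ → Fin 4) (h0 : ∀ x < W, (t x = 0 ↔ x = 0))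
    (h3 : ∀ x < W, (t x = 3 ↔ x + 1 = W)) (hs : ∀ x, x + 1 < W → stp (t x) (t (x + 1))) :
    4 ≤ W ∧ ∀ x < W, t x = hty W x := by
  have a0 : t 0 = 0 := (h0 0 hW).2 rfl
  have w1 : W ≠ 1 := by
    intro h
    have := (h3 0 hW).2 (by omega)
    rw [a0] at this
    exact absurd this (by decide)
  have a1 : t 1 = 1 := by
    have := hs 0 (by omega)
    rw [a0] at this
    exact stp_zero this
  have w2 : W ≠ 2 := by
    intro h
    have := (h3 1 (by omega)).2 (by omega)
    rw [a1] at this
    exact absurd this (by decide)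
  have a2 : t 2 = 2 := by
    have := hs 1 (by omega)
    rw [a1] at this
    exact stp_one this
  have w3 : W ≠ 3 := by
    intro h
    have := (h3 2 (by omega)).2 (by omega)
    rw [a2] at this
    exact absurd this (by decide)
  have key : ∀ x, 2 ≤ x → x + 1 < W → t x = 2 := by
    intro x hx
    induction x, hx using Nat.le_induction with
    | base => intro _; exact a2
    | succ x hx ih =>
      intro h
      have h1 := hs x (by omega)
      rw [ih (by omega)] at h1
      rcases stp_two h1 with h2 | h2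
      · exact h2
      · have := (h3 (x + 1) (by omega)).1 h2
        omega
  refine ⟨by omega, fun x hx => ?_⟩
  unfold hty
  by_cases c0 : x = 0
  · rw [if_pos c0, c0]
    exact a0
  · rw [if_neg c0]
    by_cases c3 : x + 1 = W
    · rw [if_pos c3]
      exact (h3 x hx).2 c3
    · rw [if_neg c3]
      by_cases c1 : x = 1
      · rw [if_pos c1, c1]
        exact a1
      · rw [if_neg c1]
        exact key x (by omega) (by omega)

lemma not_mid_h {q : Lb} (h : q.h = 0 ∨ q.h = 3) : ¬ mid q := by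
  rintro ⟨h1, -⟩
  rcases h with h | h <;> rw [h] at h1 <;> revert h1 <;> decide

lemma not_mid_v {q : Lb} (h : q.v = 0 ∨ q.v = 3) : ¬ mid q := by
  rintro ⟨-, h1⟩
  rcases h with h | h <;> rw [h] at h1 <;> revert h1 <;> decide

lemma er_uniq (lr : LR G lb) {s s' : Bool} {x x' y y' : V} (h : Er G lb s x y)
    (h' : Er G lb s' x' y') (hx : x = x') (m1 : ¬ mid (lb x)) (m2 : ¬ mid (lb y)) : y = y' := by
  subst hx
  have h1 : Er G lb s' x y := ⟨h.1, fun a => absurd a m1, fun a => absurd a m2, h.2.2.2⟩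
  exact (lr.ea s' x h1.2.1 (stp_ne h1.2.2.2.1).1).unique h1 h'

lemma nr_uniq (lr : LR G lb) {s s' : Bool} {x x' y y' : V} (h : Nr G lb s x y)
    (h' : Nr G lb s' x' y') (hx : x = x') (m1 : ¬ mid (lb x)) (m2 : ¬ mid (lb y)) : y = y' := by
  subst hx
  have h1 : Nr G lb s' x y := ⟨h.1, fun a => absurd a m1, fun a => absurd a m2, h.2.2.2⟩
  exact (lr.no s' x h1.2.1 (stp_ne h1.2.2.2.2.1).1).unique h1 h'

end

theorem pf_dv (hGR : Z_GR) : Z_DV := by
  classical
  intro V _ G lb lr hG hsq
  obtain ⟨o, ⟨ho1, ho2⟩, -⟩ := lr.cor 0 0 (Or.inl rfl) (Or.inl rfl)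
  have hgr := fun s : Bool => hGR V (fun x => ons s (lb x)) (Er G lb s) (Nr G lb s)
    (fun x => (lb x).h = 0) (fun x => (lb x).h = 3) (fun x => (lb x).v = 0)
    (fun x => (lb x).v = 3) o
    (fun x y h => ⟨h.2.1, h.2.2.1, (stp_ne h.2.2.2.1).1, (stp_ne h.2.2.2.1).2,
      by rw [h.2.2.2.2.1],
      by rw [h.2.2.2.2.1]⟩)
    (fun x y h => ⟨h.2.1, h.2.2.1, (stp_ne h.2.2.2.2.1).1, (stp_ne h.2.2.2.2.1).2,
      by rw [h.2.2.2.1],
      by rw [h.2.2.2.1]⟩)
    (fun x y y' h h' => (lr.ea s x h.2.1 (stp_ne h.2.2.2.1).1).unique h h')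
    (fun x x' y h h' => (lr.we s y h.2.2.1 (stp_ne h.2.2.2.1).2).unique h h')
    (fun x y y' h h' => (lr.no s x h.2.1 (stp_ne h.2.2.2.2.1).1).unique h h')
    (fun x x' y h h' => (lr.so s y h.2.2.1 (stp_ne h.2.2.2.2.1).2).unique h h')
    (fun x hx h => (lr.ea s x hx h).exists) (fun x hx h => (lr.no s x hx h).exists)
    (fun h => absurd h (not_mid_h (Or.inl ho1))) ho1 ho2 (hsq s)
  choose W H g hW hH hg0 hE hN hT hinj using hgr
  -- types
  have hrow : ∀ s, ∀ y < H s, 4 ≤ W s ∧ ∀ x < W s, (lb (g s x y)).h = hty (W s) x := by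
    intro s y hy
    exact types (hW s) (fun x => (lb (g s x y)).h) (fun x hx => (hT s x hx y hy).2.1)
      (fun x hx => (hT s x hx y hy).2.2.1) (fun x hx => (hE s x y hx hy).2.2.2.1)
  have hcol : ∀ s, ∀ x < W s, 4 ≤ H s ∧ ∀ y < H s, (lb (g s x y)).v = hty (H s) y := by
    intro s x hx
    exact types (hH s) (fun y => (lb (g s x y)).v) (fun y hy => (hT s x hx y hy).2.2.2.1)
      (fun y hy => (hT s x hx y hy).2.2.2.2) (fun y hy => (hN s x y hx hy).2.2.2.2.1)
  have hW4 : ∀ s, 4 ≤ W s := fun s => (hrow s 0 (hH s)).1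
  have hH4 : ∀ s, 4 ≤ H s := fun s => (hcol s 0 (hW s)).1
  -- the bottom row and the left column
  have hbot : ∀ x, x < W true → x < W false → g true x 0 = g false x 0 := by
    intro x
    induction x with
    | zero => intro _ _; rw [hg0, hg0]
    | succ x ih =>
      intro h1 h2
      refine er_uniq lr (hE true x 0 h1 (hH true)) (hE false x 0 h2 (hH false))
        (ih (by omega) (by omega)) (not_mid_v (Or.inl ?_)) (not_mid_v (Or.inl ?_))
      · exact (hT true x (by omega) 0 (hH true)).2.2.2.1.2 rfl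
      · exact (hT true (x + 1) h1 0 (hH true)).2.2.2.1.2 rfl
  have hleft : ∀ y, y < H true → y < H false → g true 0 y = g false 0 y := by
    intro y
    induction y with
    | zero => intro _ _; rw [hg0, hg0]
    | succ y ih =>
      intro h1 h2
      refine nr_uniq lr (hN true 0 y (hW true) h1) (hN false 0 y (hW false) h2)
        (ih (by omega) (by omega)) (not_mid_h (Or.inl ?_)) (not_mid_h (Or.inl ?_))
      · exact (hT true 0 (hW true) y (by omega)).2.1.2 rfl
      · exact (hT true 0 (hW true) (y + 1) h1).2.1.2 rfl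
  have hWe : W true = W false := by
    rcases lt_trichotomy (W true) (W false) with h | h | h
    · exfalso
      have h4 := hW4 true
      have h1 := (hT true (W true - 1) (by omega) 0 (hH true)).2.2.1.2 (by omega)
      rw [hbot _ (by omega) (by omega)] at h1
      have h2 := (hT false (W true - 1) (by omega) 0 (hH false)).2.2.1.1 h1
      omega
    · exact h
    · exfalso
      have h4 := hW4 false
      have h1 := (hT false (W false - 1) (by omega) 0 (hH false)).2.2.1.2 (by omega)
      rw [← hbot _ (by omega) (by omega)] at h1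
      have h2 := (hT true (W false - 1) (by omega) 0 (hH true)).2.2.1.1 h1
      omega
  have hHe : H true = H false := by
    rcases lt_trichotomy (H true) (H false) with h | h | h
    · exfalso
      have h4 := hH4 true
      have h1 := (hT true 0 (hW true) (H true - 1) (by omega)).2.2.2.2.2 (by omega)
      rw [hleft _ (by omega) (by omega)] at h1
      have h2 := (hT false 0 (hW false) (H true - 1) (by omega)).2.2.2.2.1 h1
      omega
    · exact h
    · exfalso
      have h4 := hH4 false
      have h1 := (hT false 0 (hW false) (H false - 1) (by omega)).2.2.2.2.2 (by omega)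
      rw [← hleft _ (by omega) (by omega)] at h1
      have h2 := (hT true 0 (hW true) (H false - 1) (by omega)).2.2.2.2.1 h1
      omega
  obtain ⟨W0, hW0⟩ : ∃ W0, W0 = W true := ⟨_, rfl⟩
  obtain ⟨H0, hH0⟩ : ∃ H0, H0 = H true := ⟨_, rfl⟩
  have eW : ∀ s, W s = W0 := by
    intro s
    cases s
    · rw [hW0, hWe]
    · rw [hW0]
  have eH : ∀ s, H s = H0 := by
    intro s
    cases s
    · rw [hH0, hHe]
    · rw [hH0]
  simp only [eW, eH] at *
  have w4 := hW4 true
  have h4 := hH4 true
  clear hWe hHe hW0 hH0 hW4 hH4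
  have htop : ∀ x, x < W0 → g true x (H0 - 1) = g false x (H0 - 1) := by
    intro x
    induction x with
    | zero => intro _; exact hleft _ (by omega) (by omega)
    | succ x ih =>
      intro h1
      refine er_uniq lr (hE true x (H0 - 1) h1 (by omega)) (hE false x (H0 - 1) h1 (by omega))
        (ih (by omega)) (not_mid_v (Or.inr ?_)) (not_mid_v (Or.inr ?_))
      · exact (hT true x (by omega) (H0 - 1) (by omega)).2.2.2.2.2 (by omega)
      · exact (hT true (x + 1) h1 (H0 - 1) (by omega)).2.2.2.2.2 (by omega)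
  have hright : ∀ y, y < H0 → g true (W0 - 1) y = g false (W0 - 1) y := by
    intro y
    induction y with
    | zero => intro _; exact hbot _ (by omega) (by omega)
    | succ y ih =>
      intro h1
      refine nr_uniq lr (hN true (W0 - 1) y (by omega) h1) (hN false (W0 - 1) y (by omega) h1)
        (ih (by omega)) (not_mid_h (Or.inr ?_)) (not_mid_h (Or.inr ?_))
      · exact (hT true (W0 - 1) (by omega) y (by omega)).2.2.1.2 (by omega)
      · exact (hT true (W0 - 1) (by omega) (y + 1) h1).2.2.1.2 (by omega)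
  have hbd : ∀ x < W0, ∀ y < H0, (x = 0 ∨ x + 1 = W0 ∨ y = 0 ∨ y + 1 = H0) →
      g true x y = g false x y := by
    intro x hx y hy h
    rcases h with rfl | h | rfl | h
    · exact hleft y hy hy
    · obtain rfl : x = W0 - 1 := by omega
      exact hright y hy
    · exact hbot x hx hx
    · obtain rfl : y = H0 - 1 := by omega
      exact htop x hx
  -- a vertex of the development lies on every sheet on which it may be
  have hsh : ∀ s f, ∀ x < W0, ∀ y < H0, ons f (lb (g s x y)) → g s x y = g f x y := by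
    intro s f x hx y hy hf
    by_cases hb : x = 0 ∨ x + 1 = W0 ∨ y = 0 ∨ y + 1 = H0
    · have := hbd x hx y hy hb
      cases s <;> cases f
      · rfl
      · exact this.symm
      · exact this
      · rfl
    · have hm : mid (lb (g s x y)) := by
        unfold mid
        rw [(hrow s y hy).2 x hx, (hcol s x hx).2 y hy]
        unfold hty
        push Not at hb
        rw [if_neg hb.1, if_neg hb.2.1, if_neg hb.2.2.1, if_neg hb.2.2.2]
        constructor <;> split_ifs <;> simp
      have e1 := hf hm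
      have e2 := (hT s x hx y hy).1 hm
      have e3 : s = f := e2.symm.trans e1
      rw [e3]
  have hclosed : ∀ z z', G.Adj z z' → (∃ s, ∃ x < W0, ∃ y < H0, z = g s x y) →
      ∃ s, ∃ x < W0, ∃ y < H0, z' = g s x y := by
    rintro z z' hz ⟨s, x, hx, y, hy, hzg⟩
    obtain ⟨f, hf, hf'⟩ : ∃ f, ons f (lb z) ∧ ons f (lb z') := by
      have hc : mid (lb z) → mid (lb z') → (lb z').f = (lb z).f := by
        intro m1 m2
        rcases lr.adj z z' hz with h | h | h | h
        · exact h.2.2.2.2 m1 m2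
        · exact (h.2.2.2.2 m2 m1).symm
        · exact h.2.2.2.2 m1 m2
        · exact (h.2.2.2.2 m2 m1).symm
      by_cases hm : mid (lb z)
      · exact ⟨(lb z).f, fun _ => rfl, fun m2 => hc hm m2⟩
      · exact ⟨(lb z').f, fun h => absurd h hm, fun _ => rfl⟩
    rw [hzg] at hf
    have hzf : z = g f x y := by
      rw [hzg]
      exact hsh s f x hx y hy hf
    rw [← hzg] at hf
    rcases lr.adj z z' hz with h | h | h | h
    · have h1 : Er G lb f z z' := ⟨hz, hf, hf', h⟩
      have h2 : x + 1 < W0 := by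
        have h3 := (stp_ne h.1).1
        rw [hzf] at h3
        have h4 := mt (hT f x hx y hy).2.2.1.2 h3
        omega
      refine ⟨f, x + 1, h2, y, hy, ?_⟩
      have h5 := hE f x y h2 hy
      rw [← hzf] at h5
      exact (lr.ea f z hf (stp_ne h.1).1).unique h1 h5
    · have h1 : Er G lb f z' z := ⟨hz.symm, hf', hf, h⟩
      have h2 : x ≠ 0 := by
        have h3 := (stp_ne h.1).2
        rw [hzf] at h3
        exact mt (hT f x hx y hy).2.1.2 h3
      obtain ⟨x', rfl⟩ : ∃ x', x = x' + 1 := ⟨x - 1, by omega⟩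
      refine ⟨f, x', by omega, y, hy, ?_⟩
      have h5 := hE f x' y hx hy
      rw [← hzf] at h5
      exact (lr.we f z hf (stp_ne h.1).2).unique h1 h5
    · have h1 : Nr G lb f z z' := ⟨hz, hf, hf', h⟩
      have h2 : y + 1 < H0 := by
        have h3 := (stp_ne h.2.1).1
        rw [hzf] at h3
        have h4 := mt (hT f x hx y hy).2.2.2.2.2 h3
        omega
      refine ⟨f, x, hx, y + 1, h2, ?_⟩
      have h5 := hN f x y hx h2
      rw [← hzf] at h5
      exact (lr.no f z hf (stp_ne h.2.1).1).unique h1 h5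
    · have h1 : Nr G lb f z' z := ⟨hz.symm, hf', hf, h⟩
      have h2 : y ≠ 0 := by
        have h3 := (stp_ne h.2.1).2
        rw [hzf] at h3
        exact mt (hT f x hx y hy).2.2.2.1.2 h3
      obtain ⟨y', rfl⟩ : ∃ y', y = y' + 1 := ⟨y - 1, by omega⟩
      refine ⟨f, x, hx, y', by omega, ?_⟩
      have h5 := hN f x y' hx hy
      rw [← hzf] at h5
      exact (lr.so f z hf (stp_ne h.2.1).2).unique h1 h5
  have hsur : ∀ z, ∃ s, ∃ x < W0, ∃ y < H0, z = g s x y := by
    intro z
    obtain ⟨w⟩ := hG.preconnected o z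
    have key : ∀ {a b : V} (_ : G.Walk a b), (∃ s, ∃ x < W0, ∃ y < H0, a = g s x y) →
        ∃ s, ∃ x < W0, ∃ y < H0, b = g s x y := by
      intro a b w
      induction w with
      | nil => exact id
      | cons h _ ih => exact fun h' => ih (hclosed _ _ h h')
    exact key w ⟨true, 0, by omega, 0, by omega, (hg0 true).symm⟩
  exact ⟨W0, H0, g, ⟨w4, h4, fun s x hx y hy => (hT s x hx y hy).1,
    fun s x hx y hy => ⟨(hrow s y hy).2 x hx, (hcol s x hx).2 y hy⟩, hE, hN, hbd, hinj, hsur⟩⟩

end Pool.Agent.H94.PL
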