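import Pool.Agent.H94.PL.PD2

/-!
# Board pl_modules, PD: certificates are definable
-/

set_option autoImplicit false

namespace Pool.Agent.H94.PL

open Pool.Agent.H8.PL Pool.Agent.H69.Sp Pool.Agent.H69.Mt

section
variable {N n : ℕ} {A : ℕ → ℕ → Prop}

theorem code_inj {a b a' b' : ℕ} (hb : b < n) (hb' : b' < n) (h : a * n + b = a' * n + b') :
    a = a' ∧ b = b' := by
  have h1 : (a * n + b) % n = b := by
    rw [mul_comm, Nat.mul_add_mod, Nat.mod_eq_of_lt hb]
  have h2 : (a' * n + b') % n = b' := by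
    rw [mul_comm, Nat.mul_add_mod, Nat.mod_eq_of_lt hb']
  have h3 : b = b' := by rw [← h1, ← h2, h]
  subst h3
  have h4 : a * n = a' * n := by omega
  exact ⟨Nat.eq_of_mul_eq_mul_right (by omega) h4, rfl⟩

theorem code_lt {a b : ℕ} (ha : a < n) (hb : b < n) : a * n + b < n * n := by
  have h1 : (a + 1) * n ≤ n * n := Nat.mul_le_mul_right n ha
  have h2 : (a + 1) * n = a * n + n := by ring
  omega

theorem card_SE (hs : 2 * (n * n) + 4 * n + 4 < N) :
    {p : ℕ × ℕ | p.1 < p.2 ∧ p.2 < n ∧ A p.1 p.2}.ncard = (SE N n A).ncard := by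
  have hinj : Set.InjOn (fun p : ℕ × ℕ => p.1 * n + p.2)
      {p : ℕ × ℕ | p.1 < p.2 ∧ p.2 < n ∧ A p.1 p.2} := by
    rintro ⟨a, b⟩ ⟨h1, h2, h3⟩ ⟨a', b'⟩ ⟨h1', h2', h3'⟩ h
    simp only at h1 h2 h1' h2' h
    obtain ⟨e1, e2⟩ := code_inj h2 h2' h
    rw [e1, e2]
  rw [← hinj.ncard_image]
  congr 1
  ext x
  constructor
  · rintro ⟨⟨a, b⟩, ⟨h1, h2, h3⟩, rfl⟩
    simp only at h1 h2 h3 ⊢
    have h4 := code_lt (n := n) (show a < n by omega) h2
    exact ⟨by omega, a, by omega, b, by omega, a * n, by omega, h1, h2, h3, rfl, rfl⟩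
  · rintro ⟨-, a, -, b, -, q, -, h1, h2, h3, rfl, rfl⟩
    exact ⟨(a, b), ⟨h1, h2, h3⟩, rfl⟩

/-- codes and functions -/
theorem equiv {P F : ℕ → ℕ → ℕ → Prop} {T : ℕ → Prop} {K : ℕ → ℕ → Prop}
    {pos fid : ℕ → ℕ → ℕ} {rt : ℕ → Prop} {rk : ℕ → ℕ} (hs : 2 * (n * n) + 4 * n + 4 < N)
    (b1 : ∀ a b, pos a b ≤ n) (b2 : ∀ a b, fid a b ≤ n * n) (b3 : ∀ a, rk a ≤ n)
    (h1 : ∀ a < n, ∀ b < n, ∀ c < N, P a b c ↔ c = pos a b)
    (h2 : ∀ a < n, ∀ b < n, ∀ c < N, F a b c ↔ c = fid a b)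
    (h3 : ∀ a < n, T a ↔ rt a) (h4 : ∀ a < n, ∀ c < N, K a c ↔ c = rk a) :
    (CL N n A P F T K ∧ CC N n A F T) ↔ PlC n A pos fid rt rk := by
  have hn0 : 0 ≤ n * n := Nat.zero_le _
  have hnN : n < N := by omega
  have c1 : ∀ a b, pos a b < N := fun a b => by have := b1 a b; omega
  have c2 : ∀ a b, fid a b < N := fun a b => by have := b2 a b; omega
  have c3 : ∀ a, rk a < N := fun a => by have := b3 a; omega
  have eSC : {a | a < n ∧ rt a ∧ ∃ b < n, A a b} = SC N n A T := by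
    ext x
    constructor
    · rintro ⟨e1, e2, b, e3, e4⟩
      exact ⟨by omega, e1, (h3 x e1).2 e2, b, by omega, e3, e4⟩
    · rintro ⟨-, e1, e2, b, -, e3, e4⟩
      exact ⟨e1, (h3 x e1).1 e2, b, e3, e4⟩
  have eSW : {a | a < n ∧ ∃ b < n, A a b} = SW N n A := by
    ext x
    constructor
    · rintro ⟨e1, b, e3, e4⟩
      exact ⟨by omega, e1, b, by omega, e3, e4⟩
    · rintro ⟨-, e1, b, -, e3, e4⟩
      exact ⟨e1, b, e3, e4⟩
  have eSF : {k | ∃ a < n, ∃ b < n, A a b ∧ fid a b = k} = SF N n A F := by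
    ext x
    constructor
    · rintro ⟨a, e1, b, e2, e3, rfl⟩
      exact ⟨c2 a b, a, by omega, b, by omega, e1, e2, e3, (h2 a e1 b e2 _ (c2 a b)).2 rfl⟩
    · rintro ⟨e0, a, -, b, -, e1, e2, e3, e4⟩
      exact ⟨a, e1, b, e2, e3, ((h2 a e1 b e2 x e0).1 e4).symm⟩
  constructor
  · rintro ⟨⟨p1, p2, p3, p4⟩, e, he, c, hc, w, hw, f, hf, q1, q2, q3, q4, s, -, s1, -, s2, -,
      r1, r2, r3, r4⟩
    refine ⟨?_, ?_, ?_, ?_, ?_⟩
    · intro a ha b hb b' hb' hA hA' hp
      exact p1 a (by omega) b (by omega) b' (by omega) (pos a b) (c1 a b) ha hb hb' hA hA'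
        ((h1 a ha b hb _ (c1 a b)).2 rfl) ((h1 a ha b' hb' _ (c1 a b)).2 hp)
    · intro a ha b hb hA h0
      obtain ⟨b', -, c', k1, k2, k3, k4, k5⟩ := p2 a (by omega) b (by omega) (pos a b) (c1 a b)
        ha hb hA ((h1 a ha b hb _ (c1 a b)).2 rfl) h0
      exact ⟨b', k2, k3, by rw [← (h1 a ha b' k2 _ k1).1 k4, k5]⟩
    · rintro a ha b hb c' hc' ⟨hA, hA', hN⟩
      have k := p3 a (by omega) b (by omega) c' (by omega) (fid b a) (c2 b a) ha hb hc' hA hA' ?_
        ((h2 b hb a ha _ (c2 b a)).2 rfl)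
      · exact (h2 a ha c' hc' _ (c2 b a)).1 k
      · rcases hN with hN | ⟨hN, hN'⟩
        · exact Or.inl ⟨pos a b, c1 a b, pos a c', c1 a c', (h1 a ha b hb _ (c1 a b)).2 rfl,
            (h1 a ha c' hc' _ (c1 a c')).2 rfl, hN⟩
        · refine Or.inr ⟨⟨0, by omega, (h1 a ha c' hc' 0 (by omega)).2 hN.symm, rfl⟩, ?_⟩
          intro d hd p hp q hq hdn hAd hP hQ
          rw [(h1 a ha d hdn p hp).1 hP, (h1 a ha b hb q hq).1 hQ]
          exact hN' d hdn hAd
    · rintro a ha ⟨b, hb, hA⟩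
      rcases p4 a (by omega) ha ⟨b, by omega, hb, hA⟩ with h | ⟨b', -, k, hk, k', hk', i1, i2, i3,
        i4, i5⟩
      · exact Or.inl ((h3 a ha).1 h)
      · refine Or.inr ⟨b', i1, i2, ?_⟩
        rw [← (h4 b' i1 k hk).1 i3, ← (h4 a ha k' hk').1 i4]
        exact i5
    · rw [card_SE hs, eSC, eSW, eSF]
      omega
  · rintro ⟨p1, p2, p3, p4, p5⟩
    refine ⟨⟨?_, ?_, ?_, ?_⟩, ?_⟩
    · intro a _ b _ b' _ c hc ha hb hb' hA hA' hP hP'
      exact p1 a ha b hb b' hb' hA hA'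
        (((h1 a ha b hb c hc).1 hP).symm.trans ((h1 a ha b' hb' c hc).1 hP'))
    · intro a _ b _ c hc ha hb hA hP h0
      have e1 := (h1 a ha b hb c hc).1 hP
      obtain ⟨b', hb', hA', e2⟩ := p2 a ha b hb hA (by rw [← e1]; exact h0)
      exact ⟨b', by omega, pos a b', c1 a b', hb', hA', (h1 a ha b' hb' _ (c1 a b')).2 rfl,
        by rw [e1, e2]⟩
    · intro a _ b _ c _ k hk ha hb hc hA hA' hN hF
      have e1 := (h2 b hb a ha k hk).1 hF
      refine (h2 a ha c hc k hk).2 (e1.trans (p3 a ha b hb c hc ⟨hA, hA', ?_⟩))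
      rcases hN with ⟨p, hp, q, hq, i1, i2, i3⟩ | ⟨⟨p, hp, i1, rfl⟩, i2⟩
      · left
        rw [← (h1 a ha b hb p hp).1 i1, ← (h1 a ha c hc q hq).1 i2]
        exact i3
      · right
        refine ⟨((h1 a ha c hc 0 hp).1 i1).symm, fun d hd hAd => ?_⟩
        exact i2 d (by omega) (pos a d) (c1 a d) (pos a b) (c1 a b) hd hAd
          ((h1 a ha d hd _ (c1 a d)).2 rfl) ((h1 a ha b hb _ (c1 a b)).2 rfl)
    · rintro a _ ha ⟨b, _, hb, hA⟩
      rcases p4 a ha ⟨b, hb, hA⟩ with h | ⟨b', hb', hA', h⟩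
      · exact Or.inl ((h3 a ha).2 h)
      · exact Or.inr ⟨b', by omega, rk b', c3 b', rk a, c3 a, hb', hA',
          (h4 b' hb' _ (c3 b')).2 rfl, (h4 a ha _ (c3 a)).2 rfl, h⟩
    · rw [card_SE hs, eSC, eSW, eSF] at p5
      have k1 : (SE N n A).ncard ≤ n * n := by
        have : SE N n A ⊆ Set.Iio (n * n) := by
          rintro x ⟨-, a, -, b, -, q, -, i1, i2, i3, rfl, rfl⟩
          exact code_lt (by omega) i2
        have h := Set.ncard_le_ncard this (Set.finite_Iio _)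
        rwa [Set.ncard_eq_toFinset_card' (Set.Iio (n * n)), Set.toFinset_Iio, Nat.card_Iio] at h
      have k2 : (SC N n A T).ncard ≤ n := by
        have : SC N n A T ⊆ Set.Iio n := fun x hx => hx.2.1
        have h := Set.ncard_le_ncard this (Set.finite_Iio _)
        rwa [Set.ncard_eq_toFinset_card' (Set.Iio n), Set.toFinset_Iio, Nat.card_Iio] at h
      have k3 : (SW N n A).ncard ≤ n := by
        have : SW N n A ⊆ Set.Iio n := fun x hx => hx.2.1
        have h := Set.ncard_le_ncard this (Set.finite_Iio _)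
        rwa [Set.ncard_eq_toFinset_card' (Set.Iio n), Set.toFinset_Iio, Nat.card_Iio] at h
      have k4 : (SF N n A F).ncard ≤ n * n + 1 := by
        have : SF N n A F ⊆ Set.Iio (n * n + 1) := by
          rw [← eSF]
          rintro x ⟨a, -, b, -, -, rfl⟩
          have := b2 a b
          simp only [Set.mem_Iio]
          omega
        have h := Set.ncard_le_ncard this (Set.finite_Iio _)
        rwa [Set.ncard_eq_toFinset_card' (Set.Iio (n * n + 1)), Set.toFinset_Iio,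
          Nat.card_Iio] at h
      exact ⟨_, by omega, _, by omega, _, by omega, _, by omega, le_rfl, le_rfl, le_rfl, le_rfl,
        _, by omega, _, by omega, _, by omega, rfl, rfl, rfl, by omega⟩

end

theorem pf_pd (hNC : Z_NC) : Z_PD := by
  classical
  refine (ed_all hNC).congr fun N E v hv => ?_
  refine and_congr_right fun hs => ?_
  have hn0 : 0 ≤ v 1 * v 1 := Nat.zero_le _
  constructor
  · rintro ⟨P, F, T, K, ⟨m, -, rfl, f1, f2, f3, f4, f5, f6⟩, hCL, hCC⟩
    have g1 : ∀ a b, ∃ c, c ≤ v 1 ∧ (a < v 1 → b < v 1 → P [a, b, c]) := by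
      intro a b
      by_cases h : a < v 1 ∧ b < v 1
      · obtain ⟨c, -, h1, h2⟩ := f1 a (by omega) b (by omega) h.1 h.2
        exact ⟨c, h1, fun _ _ => h2⟩
      · exact ⟨0, Nat.zero_le _, fun h1 h2 => absurd ⟨h1, h2⟩ h⟩
    have g2 : ∀ a b, ∃ c, c ≤ v 1 * v 1 ∧ (a < v 1 → b < v 1 → F [a, b, c]) := by
      intro a b
      by_cases h : a < v 1 ∧ b < v 1
      · obtain ⟨c, -, h1, h2⟩ := f3 a (by omega) b (by omega) h.1 h.2
        exact ⟨c, h1, fun _ _ => h2⟩
      · exact ⟨0, Nat.zero_le _, fun h1 h2 => absurd ⟨h1, h2⟩ h⟩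
    have g3 : ∀ a, ∃ c, c ≤ v 1 ∧ (a < v 1 → K [a, c]) := by
      intro a
      by_cases h : a < v 1
      · obtain ⟨c, -, h1, h2⟩ := f5 a (by omega) h
        exact ⟨c, h1, fun _ => h2⟩
      · exact ⟨0, Nat.zero_le _, fun h1 => absurd h1 h⟩
    choose pos b1 r1 using g1
    choose fid b2 r2 using g2
    choose rk b3 r3 using g3
    refine ⟨pos, fid, fun a => T [a], rk, b1, b2, b3, ?_⟩
    refine (equiv hs b1 b2 b3 ?_ ?_ (fun a _ => Iff.rfl) ?_).1 ⟨hCL, hCC⟩
    · intro a ha b hb c hc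
      constructor
      · intro h
        exact f2 a (by omega) b (by omega) c hc (pos a b) (by have := b1 a b; omega) h
          (r1 a b ha hb)
      · rintro rfl
        exact r1 a b ha hb
    · intro a ha b hb c hc
      constructor
      · intro h
        exact f4 a (by omega) b (by omega) c hc (fid a b) (by have := b2 a b; omega) h
          (r2 a b ha hb)
      · rintro rfl
        exact r2 a b ha hb
    · intro a ha c hc
      constructor
      · intro h
        exact f6 a (by omega) c hc (rk a) (by have := b3 a; omega) h (r3 a ha)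
      · rintro rfl
        exact r3 a ha
  · rintro ⟨pos, fid, rt, rk, b1, b2, b3, h⟩
    have e1 : ∀ a b c, (∃ a' b', [a, b, c] = [a', b', pos a' b']) ↔ c = pos a b := by
      intro a b c
      constructor
      · rintro ⟨a', b', h⟩
        simp only [List.cons.injEq, and_true] at h
        obtain ⟨rfl, rfl, h⟩ := h
        exact h
      · rintro rfl
        exact ⟨a, b, rfl⟩
    have e2 : ∀ a b c, (∃ a' b', [a, b, c] = [a', b', fid a' b']) ↔ c = fid a b := by
      intro a b c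
      constructor
      · rintro ⟨a', b', h⟩
        simp only [List.cons.injEq, and_true] at h
        obtain ⟨rfl, rfl, h⟩ := h
        exact h
      · rintro rfl
        exact ⟨a, b, rfl⟩
    have e3 : ∀ a, (∃ a', [a] = [a'] ∧ rt a') ↔ rt a := by
      intro a
      constructor
      · rintro ⟨a', h, h'⟩
        simp only [List.cons.injEq, and_true] at h
        rw [h]
        exact h'
      · intro h
        exact ⟨a, rfl, h⟩
    have e4 : ∀ a c, (∃ a', [a, c] = [a', rk a']) ↔ c = rk a := by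
      intro a c
      constructor
      · rintro ⟨a', h⟩
        simp only [List.cons.injEq, and_true] at h
        obtain ⟨rfl, h⟩ := h
        exact h
      · rintro rfl
        exact ⟨a, rfl⟩
    refine ⟨fun l => ∃ a b, l = [a, b, pos a b], fun l => ∃ a b, l = [a, b, fid a b],
      fun l => ∃ a, l = [a] ∧ rt a, fun l => ∃ a, l = [a, rk a], ⟨v 1 * v 1, by omega, rfl, ?_⟩,
      (equiv hs b1 b2 b3 (fun a _ b _ c _ => e1 a b c) (fun a _ b _ c _ => e2 a b c)
        (fun a _ => e3 a) (fun a _ c _ => e4 a c)).2 h⟩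
    simp only [CF, e1, e2, e4]
    refine ⟨?_, ?_, ?_, ?_, ?_, ?_⟩
    · intro a _ b _ _ _
      exact ⟨pos a b, by have := b1 a b; omega, b1 a b, rfl⟩
    · rintro a _ b _ c _ d _ rfl rfl
      rfl
    · intro a _ b _ _ _
      exact ⟨fid a b, by have := b2 a b; omega, b2 a b, rfl⟩
    · rintro a _ b _ c _ d _ rfl rfl
      rfl
    · intro a _ _
      exact ⟨rk a, by have := b3 a; omega, b3 a, rfl⟩
    · rintro a _ c _ d _ rfl rfl
      rfl

end Pool.Agent.H94.PL
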