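import Pool.Agent.H8.PL.Targets

/-!
# Board pl_modules, PL: the pillowcase satisfies the rules
-/

set_option autoImplicit false

namespace Pool.Agent.H94.PL

open Pool.Agent.H8.PL

variable {W H : ℕ}

lemma hty_zero (x : ℕ) : hty W x = 0 ↔ x = 0 := by
  unfold hty
  split_ifs with h1 h2 h3 <;> simp_all

lemma hty_three (hW : 4 ≤ W) (x : ℕ) : hty W x = 3 ↔ x + 1 = W := by
  unfold hty
  split_ifs with h1 h2 h3
  · simp only [Fin.isValue, Fin.reduceEq, false_iff]; omega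
  · simp [h2]
  · simp only [Fin.isValue, Fin.reduceEq, false_iff]; omega
  · simp only [Fin.isValue, Fin.reduceEq, false_iff]; omega

lemma hty_mid (hW : 4 ≤ W) (x : ℕ) (hx : x < W) :
    (hty W x = 1 ∨ hty W x = 2) ↔ 0 < x ∧ x + 1 < W := by
  unfold hty
  split_ifs with h1 h2 h3
  · simp; omega
  · simp; omega
  · simp; omega
  · simp; omega

lemma stp_hty (hW : 4 ≤ W) (x : ℕ) (hx : x + 1 < W) : stp (hty W x) (hty W (x + 1)) := by
  have a1 : hty W (x + 1) = if x + 1 + 1 = W then 3 else if x = 0 then 1 else 2 := by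
    unfold hty
    rw [if_neg (by omega)]
    by_cases h : x + 1 + 1 = W
    · rw [if_pos h, if_pos h]
    · rw [if_neg h, if_neg h]
      by_cases h' : x = 0
      · rw [if_pos h', if_pos (by omega)]
      · rw [if_neg h', if_neg (by omega)]
  have a2 : hty W x = if x = 0 then 0 else if x = 1 then 1 else 2 := by
    unfold hty
    by_cases h : x = 0
    · rw [if_pos h, if_pos h]
    · rw [if_neg h, if_neg h, if_neg (by omega)]
  rw [a1, a2]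
  unfold stp
  by_cases h0 : x = 0
  · rw [if_pos h0, if_pos h0, if_neg (by omega)]
    exact Or.inl ⟨rfl, rfl⟩
  · rw [if_neg h0, if_neg h0]
    by_cases h1 : x = 1
    · rw [if_pos h1, if_neg (by omega)]
      exact Or.inr (Or.inl ⟨rfl, rfl⟩)
    · rw [if_neg h1]
      by_cases h2 : x + 1 + 1 = W
      · rw [if_pos h2]
        exact Or.inr (Or.inr (Or.inr ⟨rfl, rfl⟩))
      · rw [if_neg h2]
        exact Or.inr (Or.inr (Or.inl ⟨rfl, rfl⟩))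

/-- on the sheet `s` -/
def on' (s : Bool) (p : PV W H) : Prop := inr p → p.1.1 = s

lemma mid_iff (hW : 4 ≤ W) (hH : 4 ≤ H) (p : PV W H) : mid (plb W H p) ↔ inr p := by
  unfold mid
  change (hty W p.1.2.1 = 1 ∨ hty W p.1.2.1 = 2) ∧ (hty H p.1.2.2 = 1 ∨ hty H p.1.2.2 = 2) ↔ _
  rw [hty_mid hW _ p.2.1, hty_mid hH _ p.2.2.1]
  unfold inr
  tauto

lemma ons_iff (hW : 4 ≤ W) (hH : 4 ≤ H) (s : Bool) (p : PV W H) :
    ons s (plb W H p) ↔ on' s p := by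
  unfold ons
  rw [mid_iff hW hH]
  rfl

lemma cast_ne (x y : ℕ) (h : x = y + 1) : (x : ZMod 6) ≠ y ∧ (y : ZMod 6) ≠ x ∧
    (y : ZMod 6) ≠ x + 1 ∧ (x : ZMod 6) = y + 1 := by
  subst h
  push_cast
  have h1 : (1 : ZMod 6) ≠ 0 := by decide
  have h2 : (2 : ZMod 6) ≠ 0 := by decide
  refine ⟨fun h => h1 ?_, fun h => h1 ?_, fun h => h2 ?_, rfl⟩
  · linear_combination h
  · linear_combination -h
  · linear_combination -h

lemma cast_ne' (x : ℕ) : (x : ZMod 6) ≠ x + 1 := by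
  have h1 : (1 : ZMod 6) ≠ 0 := by decide
  intro h
  exact h1 (by linear_combination -h)

/-- the vertices are determined by their coordinates and the sheet -/
lemma uq (s : Bool) (x y : ℕ) (hx : x < W) (hy : y < H) :
    ∃! q : PV W H, on' s q ∧ q.1.2.1 = x ∧ q.1.2.2 = y := by
  by_cases h : 0 < x ∧ x + 1 < W ∧ 0 < y ∧ y + 1 < H
  · refine ⟨⟨(s, x, y), hx, hy, fun _ => h⟩, ⟨fun _ => rfl, rfl, rfl⟩, ?_⟩
    rintro ⟨⟨f, x', y'⟩, h1, h2, h3⟩ ⟨h4, h5, h6⟩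
    simp only at h1 h2 h3 h5 h6
    subst h5 h6
    have h7 : f = s := h4 h
    subst h7
    rfl
  · refine ⟨⟨(true, x, y), hx, hy, fun h => by simp at h⟩, ⟨fun h' => absurd h' h, rfl, rfl⟩, ?_⟩
    rintro ⟨⟨f, x', y'⟩, h1, h2, h3⟩ ⟨h4, h5, h6⟩
    simp only at h1 h2 h3 h5 h6
    subst h5 h6
    have h7 : f = true := by
      cases f with
      | true => rfl
      | false => exact absurd (h3 rfl) h
    subst h7
    rfl

lemma er_iff (hW : 4 ≤ W) (hH : 4 ≤ H) (s : Bool) (p q : PV W H) :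
    Er (PG W H) (plb W H) s p q ↔ on' s p ∧ on' s q ∧ q.1.2.1 = p.1.2.1 + 1 ∧
      q.1.2.2 = p.1.2.2 := by
  unfold Er
  rw [ons_iff hW hH, ons_iff hW hH]
  constructor
  · rintro ⟨⟨h1, -⟩, h3, h4, -, -, h5, h6, -⟩
    refine ⟨h3, h4, ?_⟩
    have h5' : (q.1.2.1 : ZMod 6) = p.1.2.1 + 1 := h5
    have h6' : (q.1.2.2 : ZMod 6) = p.1.2.2 := h6
    rcases h1 with ⟨h1 | h1, h2⟩ | ⟨h1, h2⟩
    · exact ⟨h1, h2.symm⟩
    · exact absurd h5' (cast_ne _ _ h1).2.2.1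
    · rw [h1] at h5'
      exact absurd h5' (cast_ne' _)
  · rintro ⟨h1, h2, h3, h4⟩
    have hq := q.2.1
    have hf : inr p → inr q → q.1.1 = p.1.1 := fun a b => (h2 b).trans (h1 a).symm
    refine ⟨⟨Or.inl ⟨Or.inl h3, h4.symm⟩, fun a b => (hf a b).symm⟩, h1, h2, ?_, ?_, ?_, ?_, ?_⟩
    · change stp (hty W p.1.2.1) (hty W q.1.2.1)
      rw [h3] at hq ⊢
      exact stp_hty hW _ hq
    · change hty H q.1.2.2 = hty H p.1.2.2
      rw [h4]
    · exact (cast_ne _ _ h3).2.2.2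
    · change (q.1.2.2 : ZMod 6) = p.1.2.2
      rw [h4]
    · rw [mid_iff hW hH, mid_iff hW hH]
      exact hf

lemma nr_iff (hW : 4 ≤ W) (hH : 4 ≤ H) (s : Bool) (p q : PV W H) :
    Nr (PG W H) (plb W H) s p q ↔ on' s p ∧ on' s q ∧ q.1.2.1 = p.1.2.1 ∧
      q.1.2.2 = p.1.2.2 + 1 := by
  unfold Nr
  rw [ons_iff hW hH, ons_iff hW hH]
  constructor
  · rintro ⟨⟨h1, -⟩, h3, h4, -, -, h5, h6, -⟩
    refine ⟨h3, h4, ?_⟩
    have h5' : (q.1.2.1 : ZMod 6) = p.1.2.1 := h5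
    have h6' : (q.1.2.2 : ZMod 6) = p.1.2.2 + 1 := h6
    rcases h1 with ⟨h1, h2⟩ | ⟨h2, h1 | h1⟩
    · rw [h2] at h6'
      exact absurd h6' (cast_ne' _)
    · exact ⟨h2.symm, h1⟩
    · exact absurd h6' (cast_ne _ _ h1).2.2.1
  · rintro ⟨h1, h2, h3, h4⟩
    have hq := q.2.2.1
    have hf : inr p → inr q → q.1.1 = p.1.1 := fun a b => (h2 b).trans (h1 a).symm
    refine ⟨⟨Or.inr ⟨h3.symm, Or.inl h4⟩, fun a b => (hf a b).symm⟩, h1, h2, ?_, ?_, ?_, ?_, ?_⟩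
    · change hty W q.1.2.1 = hty W p.1.2.1
      rw [h3]
    · change stp (hty H p.1.2.2) (hty H q.1.2.2)
      rw [h4] at hq ⊢
      exact stp_hty hH _ hq
    · change (q.1.2.1 : ZMod 6) = p.1.2.1
      rw [h3]
    · exact (cast_ne _ _ h4).2.2.2
    · rw [mid_iff hW hH, mid_iff hW hH]
      exact hf

theorem pf_pl : Z_PL := by
  intro W H hW hH
  refine ⟨?_, ?_, ?_, ?_, ?_, ?_⟩
  · intro p q hpq
    have hs : ∃ s, on' s p ∧ on' s q := by
      by_cases hp : inr p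
      · exact ⟨p.1.1, fun _ => rfl, fun hq => (hpq.2 hp hq).symm⟩
      · exact ⟨q.1.1, fun h => absurd h hp, fun _ => rfl⟩
    obtain ⟨s, hp, hq⟩ := hs
    rcases hpq.1 with ⟨h1 | h1, h2⟩ | ⟨h2, h1 | h1⟩
    · exact Or.inl ((er_iff hW hH s p q).2 ⟨hp, hq, h1, h2.symm⟩).2.2.2
    · exact Or.inr (Or.inl ((er_iff hW hH s q p).2 ⟨hq, hp, h1, h2⟩).2.2.2)
    · exact Or.inr (Or.inr (Or.inl ((nr_iff hW hH s p q).2 ⟨hp, hq, h2.symm, h1⟩).2.2.2))
    · exact Or.inr (Or.inr (Or.inr ((nr_iff hW hH s q p).2 ⟨hq, hp, h2, h1⟩).2.2.2))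
  · intro s p hp h3
    rw [ons_iff hW hH] at hp
    have h4 : p.1.2.1 + 1 ≠ W := fun h => h3 ((hty_three hW _).2 h)
    have hb := p.2.1
    obtain ⟨q, h5, h6⟩ := uq (W := W) (H := H) s (p.1.2.1 + 1) p.1.2.2 (by omega) p.2.2.1
    refine ⟨q, (er_iff hW hH s p q).2 ⟨hp, h5⟩, fun q' hq' => h6 q' ?_⟩
    exact ((er_iff hW hH s p q').1 hq').2
  · intro s p hp h3
    rw [ons_iff hW hH] at hp
    have h4 : p.1.2.1 ≠ 0 := fun h => h3 ((hty_zero _).2 h)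
    have hb := p.2.1
    obtain ⟨q, ⟨h5, h5a, h5b⟩, h6⟩ := uq (W := W) (H := H) s (p.1.2.1 - 1) p.1.2.2
      (by omega) p.2.2.1
    refine ⟨q, (er_iff hW hH s q p).2 ⟨h5, hp, by omega, h5b.symm⟩, fun q' hq' => h6 q' ?_⟩
    obtain ⟨a, b, c, d⟩ := (er_iff hW hH s q' p).1 hq'
    exact ⟨a, by omega, d.symm⟩
  · intro s p hp h3
    rw [ons_iff hW hH] at hp
    have h4 : p.1.2.2 + 1 ≠ H := fun h => h3 ((hty_three hH _).2 h)
    have hb := p.2.2.1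
    obtain ⟨q, h5, h6⟩ := uq (W := W) (H := H) s p.1.2.1 (p.1.2.2 + 1) p.2.1 (by omega)
    refine ⟨q, (nr_iff hW hH s p q).2 ⟨hp, h5⟩, fun q' hq' => h6 q' ?_⟩
    exact ((nr_iff hW hH s p q').1 hq').2
  · intro s p hp h3
    rw [ons_iff hW hH] at hp
    have h4 : p.1.2.2 ≠ 0 := fun h => h3 ((hty_zero _).2 h)
    have hb := p.2.2.1
    obtain ⟨q, ⟨h5, h5a, h5b⟩, h6⟩ := uq (W := W) (H := H) s p.1.2.1 (p.1.2.2 - 1) p.2.1
      (by omega)
    refine ⟨q, (nr_iff hW hH s q p).2 ⟨h5, hp, h5a.symm, by omega⟩, fun q' hq' => h6 q' ?_⟩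
    obtain ⟨a, b, c, d⟩ := (nr_iff hW hH s q' p).1 hq'
    exact ⟨a, c.symm, by omega⟩
  · -- corners
    have key : ∀ (W : ℕ) (h : Fin 4), 4 ≤ W → (h = 0 ∨ h = 3) → ∃ x < W, ∀ x' < W,
        hty W x' = h ↔ x' = x := by
      intro W h hW hh
      rcases hh with rfl | rfl
      · exact ⟨0, by omega, fun x' _ => hty_zero x'⟩
      · exact ⟨W - 1, by omega, fun x' hx' => by rw [hty_three hW]; omega⟩
    intro h v hh hv
    obtain ⟨x, hx, hx'⟩ := key W h hW hh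
    obtain ⟨y, hy, hy'⟩ := key H v hH hv
    obtain ⟨q, ⟨h5, h5a, h5b⟩, h6⟩ := uq (W := W) (H := H) true x y hx hy
    refine ⟨q, ⟨(hx' _ q.2.1).2 h5a, (hy' _ q.2.2.1).2 h5b⟩, ?_⟩
    rintro q' ⟨a, b⟩
    have a' : q'.1.2.1 = x := (hx' _ q'.2.1).1 a
    have b' : q'.1.2.2 = y := (hy' _ q'.2.2.1).1 b
    refine h6 q' ⟨fun hq' => ?_, a', b'⟩
    exfalso
    obtain ⟨c1, c2, -⟩ := hq'
    have h7 : h = 1 ∨ h = 2 := by
      have := (hty_mid hW _ q'.2.1).2 ⟨c1, c2⟩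
      have a2 : hty W q'.1.2.1 = h := a
      rw [a2] at this
      exact this
    rcases hh with rfl | rfl <;> simp at h7

end Pool.Agent.H94.PL
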