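import Pool.Agent.H8.PL.Targets

/-!
# Board pl_modules, PD, part 1: the conditions on a certificate are definable
-/

set_option autoImplicit false

namespace Pool.Agent.H94.PL

open Pool.Agent.H8.PL Pool.Agent.H69.Sp Pool.Agent.H69.Mt

/-- the codes of the functions are functions -/
def CF (N n m : ℕ) (P F : ℕ → ℕ → ℕ → Prop) (K : ℕ → ℕ → Prop) : Prop :=
  (∀ a < N, ∀ b < N, a < n → b < n → ∃ c < N, c ≤ n ∧ P a b c) ∧
  (∀ a < N, ∀ b < N, ∀ c < N, ∀ d < N, P a b c → P a b d → c = d) ∧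
  (∀ a < N, ∀ b < N, a < n → b < n → ∃ c < N, c ≤ m ∧ F a b c) ∧
  (∀ a < N, ∀ b < N, ∀ c < N, ∀ d < N, F a b c → F a b d → c = d) ∧
  (∀ a < N, a < n → ∃ c < N, c ≤ n ∧ K a c) ∧
  (∀ a < N, ∀ c < N, ∀ d < N, K a c → K a d → c = d)

/-- the local conditions -/
def CL (N n : ℕ) (A : ℕ → ℕ → Prop) (P F : ℕ → ℕ → ℕ → Prop) (T : ℕ → Prop)
    (K : ℕ → ℕ → Prop) : Prop :=
  (∀ a < N, ∀ b < N, ∀ b' < N, ∀ c < N, a < n → b < n → b' < n → A a b → A a b' → P a b c →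
    P a b' c → b = b') ∧
  (∀ a < N, ∀ b < N, ∀ c < N, a < n → b < n → A a b → P a b c → ¬ c = 0 →
    ∃ b' < N, ∃ c' < N, b' < n ∧ A a b' ∧ P a b' c' ∧ c = c' + 1) ∧
  (∀ a < N, ∀ b < N, ∀ c < N, ∀ k < N, a < n → b < n → c < n → A a b → A a c →
    ((∃ p < N, ∃ q < N, P a b p ∧ P a c q ∧ q = p + 1) ∨
      ((∃ p < N, P a c p ∧ p = 0) ∧ ∀ d < N, ∀ p < N, ∀ q < N, d < n → A a d → P a d p →
        P a b q → p ≤ q)) → F b a k → F a c k) ∧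
  (∀ a < N, a < n → (∃ b < N, b < n ∧ A a b) → T a ∨
    ∃ b < N, ∃ k < N, ∃ k' < N, b < n ∧ A a b ∧ K b k ∧ K a k' ∧ k < k')

theorem fd_cf : FD (fun N E v => CF N (v 1) (v 2) (fun a b c => E 3 [a, b, c])
    (fun a b c => E 5 [a, b, c]) (fun a c => E 9 [a, c])) := by
  have h1 := FD.all 3 (FD.all 4 ((FD.lt 3 1).imp ((FD.lt 4 1).imp
    (FD.ex 5 ((FD.le 5 1).and (FD.par 3 [3, 4, 5]))))))
  have h2 := FD.all 3 (FD.all 4 (FD.all 5 (FD.all 6 ((FD.par 3 [3, 4, 5]).imp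
    ((FD.par 3 [3, 4, 6]).imp (FD.eq 5 6))))))
  have h3 := FD.all 3 (FD.all 4 ((FD.lt 3 1).imp ((FD.lt 4 1).imp
    (FD.ex 5 ((FD.le 5 2).and (FD.par 5 [3, 4, 5]))))))
  have h4 := FD.all 3 (FD.all 4 (FD.all 5 (FD.all 6 ((FD.par 5 [3, 4, 5]).imp
    ((FD.par 5 [3, 4, 6]).imp (FD.eq 5 6))))))
  have h5 := FD.all 3 ((FD.lt 3 1).imp (FD.ex 5 ((FD.le 5 1).and (FD.par 9 [3, 5]))))
  have h6 := FD.all 3 (FD.all 5 (FD.all 6 ((FD.par 9 [3, 5]).imp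
    ((FD.par 9 [3, 6]).imp (FD.eq 5 6)))))
  refine (h1.and (h2.and (h3.and (h4.and (h5.and h6))))).congr fun N E v hv => ?_
  simp only [Function.update_apply, List.map_cons, List.map_nil, OfNat.one_ne_ofNat,
    Nat.reduceEqDiff, if_true, if_false, CF]

theorem fd_cl : FD (fun N E v => CL N (v 1) (fun a b => E 1 [a, b]) (fun a b c => E 3 [a, b, c])
    (fun a b c => E 5 [a, b, c]) (fun a => E 7 [a]) (fun a c => E 9 [a, c])) := by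
  have h1 := FD.all 2 (FD.all 3 (FD.all 4 (FD.all 5 ((FD.lt 2 1).imp ((FD.lt 3 1).imp
    ((FD.lt 4 1).imp ((FD.par 1 [2, 3]).imp ((FD.par 1 [2, 4]).imp ((FD.par 3 [2, 3, 5]).imp
    ((FD.par 3 [2, 4, 5]).imp (FD.eq 3 4)))))))))))
  have h2 := FD.all 2 (FD.all 3 (FD.all 4 ((FD.lt 2 1).imp ((FD.lt 3 1).imp
    ((FD.par 1 [2, 3]).imp ((FD.par 3 [2, 3, 4]).imp ((FD.num 0 4).not.imp
    (FD.ex 5 (FD.ex 6 ((FD.lt 5 1).and ((FD.par 1 [2, 5]).and ((FD.par 3 [2, 5, 6]).and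
    (FD.succ 6 4)))))))))))))
  have h3a := FD.ex 6 (FD.ex 7 ((FD.par 3 [2, 3, 6]).and ((FD.par 3 [2, 4, 7]).and
    (FD.succ 6 7))))
  have h3b := FD.ex 6 ((FD.par 3 [2, 4, 6]).and (FD.num 0 6))
  have h3c := FD.all 8 (FD.all 6 (FD.all 7 ((FD.lt 8 1).imp ((FD.par 1 [2, 8]).imp
    ((FD.par 3 [2, 8, 6]).imp ((FD.par 3 [2, 3, 7]).imp (FD.le 6 7)))))))
  have h3 := FD.all 2 (FD.all 3 (FD.all 4 (FD.all 5 ((FD.lt 2 1).imp ((FD.lt 3 1).imp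
    ((FD.lt 4 1).imp ((FD.par 1 [2, 3]).imp ((FD.par 1 [2, 4]).imp ((h3a.or (h3b.and h3c)).imp
    ((FD.par 5 [3, 2, 5]).imp (FD.par 5 [2, 4, 5])))))))))))
  have h4 := FD.all 2 ((FD.lt 2 1).imp ((FD.ex 3 ((FD.lt 3 1).and (FD.par 1 [2, 3]))).imp
    ((FD.par 7 [2]).or (FD.ex 3 (FD.ex 4 (FD.ex 5 ((FD.lt 3 1).and ((FD.par 1 [2, 3]).and
    ((FD.par 9 [3, 4]).and ((FD.par 9 [2, 5]).and (FD.lt 4 5)))))))))))
  refine (h1.and (h2.and (h3.and h4))).congr fun N E v hv => ?_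
  simp only [Function.update_apply, List.map_cons, List.map_nil, OfNat.one_ne_ofNat,
    Nat.reduceEqDiff, if_true, if_false, CL]

end Pool.Agent.H94.PL
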