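import Pool.Agent.H94.PL.PD1

/-!
# Board pl_modules, PD, part 2: the count and the size are definable
-/

set_option autoImplicit false

namespace Pool.Agent.H94.PL

open Pool.Agent.H8.PL Pool.Agent.H69.Sp Pool.Agent.H69.Mt

/-- the codes of the edges -/
def SE (N n : ℕ) (A : ℕ → ℕ → Prop) : Set ℕ :=
  {x | x < N ∧ ∃ a < N, ∃ b < N, ∃ q < N, a < b ∧ b < n ∧ A a b ∧ a * n = q ∧ q + b = x}

/-- the roots -/
def SC (N n : ℕ) (A : ℕ → ℕ → Prop) (T : ℕ → Prop) : Set ℕ :=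
  {x | x < N ∧ x < n ∧ T x ∧ ∃ b < N, b < n ∧ A x b}

/-- the vertices -/
def SW (N n : ℕ) (A : ℕ → ℕ → Prop) : Set ℕ := {x | x < N ∧ x < n ∧ ∃ b < N, b < n ∧ A x b}

/-- the faces -/
def SF (N n : ℕ) (A : ℕ → ℕ → Prop) (F : ℕ → ℕ → ℕ → Prop) : Set ℕ :=
  {x | x < N ∧ ∃ a < N, ∃ b < N, a < n ∧ b < n ∧ A a b ∧ F a b x}

/-- the condition on the numbers -/
def CC (N n : ℕ) (A : ℕ → ℕ → Prop) (F : ℕ → ℕ → ℕ → Prop) (T : ℕ → Prop) : Prop :=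
  ∃ e < N, ∃ c < N, ∃ w < N, ∃ f < N, (SE N n A).ncard ≤ e ∧ (SC N n A T).ncard ≤ c ∧
    w ≤ (SW N n A).ncard ∧ f ≤ (SF N n A F).ncard ∧
    ∃ c2 < N, ∃ s1 < N, ∃ s2 < N, c + c = c2 ∧ e + c2 = s1 ∧ w + f = s2 ∧ s1 ≤ s2

theorem ed_cc (hNC : Z_NC) : ED (fun N E v => CC N (v 1) (fun a b => E 1 [a, b])
    (fun a b c => E 5 [a, b, c]) (fun a => E 7 [a])) := by
  have p1 := FD.ex 3 (FD.ex 4 (FD.ex 5 ((FD.lt 3 4).and ((FD.lt 4 1).and ((FD.par 1 [3, 4]).and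
    ((FD.mul 3 1 5).and (FD.add 5 4 10)))))))
  have p2 := (FD.lt 10 1).and ((FD.par 7 [10]).and (FD.ex 3 ((FD.lt 3 1).and (FD.par 1 [10, 3]))))
  have p3 := (FD.lt 10 1).and (FD.ex 3 ((FD.lt 3 1).and (FD.par 1 [10, 3])))
  have p4 := FD.ex 3 (FD.ex 4 ((FD.lt 3 1).and ((FD.lt 4 1).and ((FD.par 1 [3, 4]).and
    (FD.par 5 [3, 4, 10])))))
  have q1 := (hNC _ 10 11 p1).1
  have q2 := (hNC _ 10 12 p2).1
  have q3 := (hNC _ 10 13 p3).2
  have q4 := (hNC _ 10 14 p4).2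
  have q5 := FD.ex 15 (FD.ex 16 (FD.ex 17 ((FD.add 12 12 15).and ((FD.add 11 15 16).and
    ((FD.add 13 14 17).and (FD.le 16 17))))))
  refine (ED.ex 11 (ED.ex 12 (ED.ex 13 (ED.ex 14
    (q1.and (q2.and (q3.and (q4.and q5.ed)))))))).congr fun N E v hv => ?_
  simp only [Function.update_apply, List.map_cons, List.map_nil, OfNat.one_ne_ofNat,
    Nat.reduceEqDiff, if_true, if_false, CC, SE, SC, SW, SF]

theorem ed_size : ED (fun N _ v => 2 * (v 1 * v 1) + 4 * v 1 + 4 < N) := by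
  have p := FD.ex 2 (FD.ex 3 (FD.ex 4 (FD.ex 5 (FD.ex 6 (FD.ex 7 ((FD.mul 1 1 2).and
    ((FD.add 2 2 3).and ((FD.num 4 4).and ((FD.mul 4 1 5).and ((FD.add 3 5 6).and
    (FD.add 6 4 7)))))))))))
  refine p.ed.congr fun N E v hv => ?_
  simp only [Function.update_apply, OfNat.one_ne_ofNat, Nat.reduceEqDiff, if_true, if_false]
  constructor
  · rintro ⟨a2, -, a3, -, a4, -, a5, -, a6, -, a7, h7, e1, e2, rfl, e4, e5, e6⟩
    omega
  · intro h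
    have h1 : 0 ≤ v 1 * v 1 := Nat.zero_le _
    exact ⟨v 1 * v 1, by omega, v 1 * v 1 + v 1 * v 1, by omega, 4, by omega, 4 * v 1, by omega,
      v 1 * v 1 + v 1 * v 1 + 4 * v 1, by omega, v 1 * v 1 + v 1 * v 1 + 4 * v 1 + 4, by omega,
      rfl, rfl, rfl, rfl, rfl, rfl⟩

/-- the condition on the codes -/
def Co (N n : ℕ) (A : ℕ → ℕ → Prop) (P F : ℕ → ℕ → ℕ → Prop) (T : ℕ → Prop)
    (K : ℕ → ℕ → Prop) : Prop :=
  (∃ m < N, n * n = m ∧ CF N n m P F K) ∧ CL N n A P F T K ∧ CC N n A F T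

theorem ed_co (hNC : Z_NC) : ED (fun N E v => Co N (v 1) (fun a b => E 1 [a, b])
    (fun a b c => E 3 [a, b, c]) (fun a b c => E 5 [a, b, c]) (fun a => E 7 [a])
    (fun a c => E 9 [a, c])) := by
  have p := FD.ex 2 ((FD.mul 1 1 2).and fd_cf)
  refine (p.ed.and (fd_cl.ed.and (ed_cc hNC))).congr fun N E v hv => ?_
  simp only [Function.update_apply, OfNat.one_ne_ofNat, if_true, if_false, Co]

theorem ed_all (hNC : Z_NC) : ED (fun N E v => 2 * (v 1 * v 1) + 4 * v 1 + 4 < N ∧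
    ∃ P F T K : List ℕ → Prop, Co N (v 1) (fun a b => E 1 [a, b]) (fun a b c => P [a, b, c])
      (fun a b c => F [a, b, c]) (fun a => T [a]) (fun a c => K [a, c])) := by
  have h1 := ED.exR 3 (ED.exR 5 (ED.exR 7 (ED.exR 9 (ed_co hNC))))
  refine (ed_size.and h1).congr fun N E v hv => ?_
  simp only [Function.update_apply, OfNat.one_ne_ofNat, Nat.reduceEqDiff, if_true, if_false]

end Pool.Agent.H94.PL
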